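import Pool.Agent.Q240.SD.Stm

set_option autoImplicit false

/-! JOB Up of the project SD: few zeros imply few negative directions. -/

open Complex Filter Topology MeasureTheory
open scoped ComplexConjugate

namespace Pool.Agent.Q79.SD

open Pool.Agent.Y23 (TT Fa N2 QQ Zt mu GG Lg rfZ)
open Pool.Agent.Q240.EW (Bump Ps)
open Pool.Agent.Q240.SD

/-- elementary: `c * 2 a * exp (- a ε)` is small for large `a` -/
lemma small_exp (c ε : ℝ) (hε : 0 < ε) :
    ∀ᶠ a : ℝ in atTop, c * (2 * a) * Real.exp (-(a * ε)) ≤ 1 / 2 := by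
  have h1 : Tendsto (fun a : ℝ => a * ε) atTop atTop := tendsto_id.atTop_mul_const hε
  have h2 := (Real.tendsto_pow_mul_exp_neg_atTop_nhds_zero 1).comp h1
  have h3 : Tendsto (fun a : ℝ => (2 * c / ε) * ((a * ε) ^ 1 * Real.exp (-(a * ε)))) atTop (𝓝 0) := by
    have := h2.const_mul (2 * c / ε)
    rwa [mul_zero] at this
  have h4 : ∀ᶠ a : ℝ in atTop, (2 * c / ε) * ((a * ε) ^ 1 * Real.exp (-(a * ε))) < 1 / 2 :=
    h3.eventually_lt_const (by norm_num)
  filter_upwards [h4] with a ha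
  have : (2 * c / ε) * ((a * ε) ^ 1 * Real.exp (-(a * ε))) = c * (2 * a) * Real.exp (-(a * ε)) := by
    field_simp
  rw [this] at ha
  exact ha.le

theorem up (h1 : S_Cv) (h2 : S_Psi) : S_Up := by
  intro ψ δ hψ hδ
  obtain ⟨e1, e2, -, e4, -⟩ := h2 ψ hψ
  obtain ⟨K, hK, hz⟩ := Pool.Agent.Y23.zsum_le
  obtain ⟨K1, hK1, hP1⟩ := e4 1
  refine ⟨max 1 (4 / δ), fun C hC => ?_⟩
  have hC1 : 1 ≤ C := (le_max_left _ _).trans hC
  have hC2 : 4 / δ ≤ C := (le_max_right _ _).trans hC
  have hC0 : 0 < C := by linarith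
  have hC3 : 4 ≤ C * δ := by rwa [div_le_iff₀ hδ] at hC2
  obtain ⟨m, hm⟩ := exists_nat_ge ((4 + 2 * C) / (4 * δ))
  have hm' : 4 + 2 * C ≤ 4 * δ * m := by
    rw [div_le_iff₀ (by positivity)] at hm
    linarith
  obtain ⟨Kk, hKk, hPk⟩ := e4 (m + 1)
  have hL : 0 ≤ Lg 0 := by
    unfold Pool.Agent.Y23.Lg
    apply Real.log_nonneg
    rw [abs_zero]; norm_num
  have hev := ((small_exp (K1 ^ 2 * (K * Lg 0)) δ hδ).and
    (small_exp (Kk ^ 2 * (K * Lg 0)) 1 one_pos)).and (eventually_gt_atTop (0 : ℝ))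
  obtain ⟨A, hA⟩ := eventually_atTop.1 hev
  refine ⟨A, fun a η ha hη0 hη1 g hg hker => ?_⟩
  obtain ⟨⟨hs1, hs2⟩, ha0⟩ := hA a ha
  rw [mul_one] at hs2
  have hT1 : 1 ≤ Ht C a := by
    unfold Ht
    exact Real.one_le_exp (by positivity)
  have hT2 : Ht C a ^ 2 = Real.exp (4 * a / C) := by
    unfold Ht
    rw [← Real.exp_nat_mul]
    congr 1
    push_cast
    ring
  have hT3 : (Ht C a) ^ (1 + δ) = Ht C a * Real.exp (2 * a * δ / C) := by
    unfold Ht
    rw [← Real.exp_mul, ← Real.exp_add]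
    congr 1
    ring
  set T : ℝ := Ht C a with hTdef
  have hT0 : 0 < T := by linarith
  obtain ⟨f1, -, -⟩ := h1 ψ T hψ hT0
  have hN : 0 ≤ N2 g := Pool.Agent.Y23.N2_nonneg g
  set Bb : ℝ := K1 ^ 2 * T ^ 2 * (2 * a * Real.exp (2 * a * (η - δ)) * N2 g) with hBb
  set Bc : ℝ := Kk ^ 2 * T ^ 2 * Real.exp (-(4 * a * δ * m / C)) * (2 * a * Real.exp a * N2 g) with hBc
  have hBb0 : 0 ≤ Bb := by positivity
  have hBc0 : 0 ≤ Bc := by positivity
  -- the termwise bound
  have key : ∀ ρ : Zt, -((Bb + Bc) * (1 / (1 + ((ρ : ℂ).im - 0) ^ 2))) ≤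
      (GG (Sg ψ T g) (Sg ψ T g) ((ρ : ℂ) - 1 / 2)).re := by
    intro ρ
    have hre := Pool.Agent.Y23.half_re ρ
    have hrf := Pool.Agent.Y23.rfZ_sub ρ
    have him : ((ρ : ℂ) - 1 / 2).im = (ρ : ℂ).im := by simp
    have hre' : ((ρ : ℂ) - 1 / 2).re = (ρ : ℂ).re - 1 / 2 := by simp
    set w : ℂ := (ρ : ℂ) - 1 / 2 with hw
    rw [sub_zero, ← him]
    have hq0 : 0 < 1 + w.im ^ 2 := by positivity
    have hneg : -((Bb + Bc) * (1 / (1 + w.im ^ 2))) ≤ 0 := by
      have : 0 ≤ (Bb + Bc) * (1 / (1 + w.im ^ 2)) := by positivity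
      linarith
    have hGG : GG (Sg ψ T g) (Sg ψ T g) w = Ps ψ (w / T) ^ 2 * (TT g w * conj (TT g (-conj w))) := by
      unfold Pool.Agent.Y23.GG
      rw [f1 a g w ha0 hg, f1 a g (-conj w) ha0 hg, map_mul]
      have h3 : -conj w / (T : ℂ) = -(conj (w / (T : ℂ))) := by
        rw [map_div₀, Complex.conj_ofReal]
        ring
      rw [h3, e1, e2, Complex.conj_conj]
      ring
    have hwT : ‖w / (T : ℂ)‖ = ‖w‖ / T := by
      rw [norm_div, Complex.norm_real, Real.norm_eq_abs, abs_of_pos hT0]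
    have hreT : |(w / (T : ℂ)).re| ≤ 1 := by
      rw [Complex.div_ofReal_re, abs_div, abs_of_pos hT0, div_le_one hT0]
      linarith
    have hr1 : 1 ≤ 1 + ‖w‖ / T := by
      have : 0 ≤ ‖w‖ / T := by positivity
      linarith
    have hrpos : 0 < 1 + ‖w‖ / T := by linarith
    have hr2 : (1 + w.im ^ 2) ≤ T ^ 2 * (1 + ‖w‖ / T) ^ 2 := by
      have h4 : T ^ 2 * (1 + ‖w‖ / T) ^ 2 = (T + ‖w‖) ^ 2 := by
        field_simp
      rw [h4]
      have h5 : |w.im| ≤ ‖w‖ := Complex.abs_im_le_norm w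
      have h6 : w.im ^ 2 = |w.im| ^ 2 := (sq_abs _).symm
      have h7 := abs_nonneg w.im
      nlinarith [norm_nonneg w]
    have hinv : 1 / (1 + ‖w‖ / T) ^ 2 ≤ T ^ 2 * (1 / (1 + w.im ^ 2)) := by
      rw [mul_one_div, div_le_div_iff₀ (by positivity) hq0, one_mul]
      exact hr2
    have hTT1 := Pool.Agent.Y23.norm_TT_le ha0 hg w
    have hTT2 := Pool.Agent.Y23.norm_TT_le ha0 hg (-conj w)
    have ere : |(-conj w).re| = |w.re| := by
      have : (-conj w).re = -w.re := by simp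
      rw [this, abs_neg]
    rw [ere] at hTT2
    have hnn : ‖GG (Sg ψ T g) (Sg ψ T g) w‖ ≤
        ‖Ps ψ (w / T)‖ ^ 2 * (2 * a * Real.exp (2 * a * |w.re|) * N2 g) := by
      rw [hGG, norm_mul, norm_pow, norm_mul, RCLike.norm_conj]
      refine mul_le_mul_of_nonneg_left ?_ (by positivity)
      nlinarith [sq_nonneg (‖TT g w‖ - ‖TT g (-conj w)‖), norm_nonneg (TT g w),
        norm_nonneg (TT g (-conj w))]
    have hlow : -‖GG (Sg ψ T g) (Sg ψ T g) w‖ ≤ (GG (Sg ψ T g) (Sg ψ T g) w).re := by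
      have := Complex.abs_re_le_norm (GG (Sg ψ T g) (Sg ψ T g) w)
      exact (neg_le_neg this).trans (neg_abs_le _)
    rcases le_or_gt |w.im| (T ^ (1 + δ)) with hv | hv
    · rcases le_or_gt |w.re| (max (η - δ) 0) with hd | hd
      · by_cases h0 : w.re = 0
        · -- on the line
          have h5 : -conj w = w := by
            apply Complex.ext
            · simp [h0]
            · simp
          have h6 : (GG (Sg ψ T g) (Sg ψ T g) w).re = ‖TT (Sg ψ T g) w‖ ^ 2 := by
            unfold Pool.Agent.Y23.GG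
            rw [h5, Complex.mul_conj, Complex.ofReal_re, Complex.normSq_eq_norm_sq]
          rw [h6]
          exact hneg.trans (by positivity)
        · -- off the line, near it
          have hpos : 0 < |w.re| := abs_pos.2 h0
          have hd' : |w.re| ≤ η - δ := by
            rcases le_max_iff.1 hd with h | h
            · exact h
            · exact absurd h (not_le.2 hpos)
          have h7 : ‖Ps ψ (w / T)‖ ^ 2 ≤ K1 ^ 2 * (T ^ 2 * (1 / (1 + w.im ^ 2))) := by
            have h8 := hP1 (w / T) hreT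
            rw [pow_one, hwT] at h8
            calc ‖Ps ψ (w / T)‖ ^ 2 ≤ (K1 / (1 + ‖w‖ / T)) ^ 2 := by
                  gcongr
              _ = K1 ^ 2 * (1 / (1 + ‖w‖ / T) ^ 2) := by
                  rw [div_pow, mul_one_div]
              _ ≤ _ := by gcongr
          have h9 : 2 * a * Real.exp (2 * a * |w.re|) * N2 g ≤
              2 * a * Real.exp (2 * a * (η - δ)) * N2 g := by
            gcongr
          have h10 : ‖GG (Sg ψ T g) (Sg ψ T g) w‖ ≤ Bb * (1 / (1 + w.im ^ 2)) := by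
            calc _ ≤ ‖Ps ψ (w / T)‖ ^ 2 * (2 * a * Real.exp (2 * a * |w.re|) * N2 g) := hnn
              _ ≤ (K1 ^ 2 * (T ^ 2 * (1 / (1 + w.im ^ 2)))) *
                  (2 * a * Real.exp (2 * a * (η - δ)) * N2 g) := by gcongr
              _ = _ := by rw [hBb]; ring
          have h11 : 0 ≤ Bc * (1 / (1 + w.im ^ 2)) := by positivity
          have h12 : (Bb + Bc) * (1 / (1 + w.im ^ 2)) =
            Bb * (1 / (1 + w.im ^ 2)) + Bc * (1 / (1 + w.im ^ 2)) := by ring
          linarith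
      · -- the kernel
        have h13 : GG (Sg ψ T g) (Sg ψ T g) w = 0 := by
          rw [hGG]
          rcases le_or_gt 0 w.re with hs | hs
          · rw [abs_of_nonneg hs] at hd
            have : TT g w = 0 := by
              apply hker ρ
              · rw [← hre']; exact hd
              · rw [← him]; exact hv
            rw [this]; ring
          · rw [abs_of_neg hs] at hd
            have hre2 : ((rfZ ρ : Zt) : ℂ).re - 1 / 2 = -w.re := by
              have h14 : (((rfZ ρ : Zt) : ℂ) - 1 / 2).re = (-conj w).re := by rw [hrf]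
              have h15 : (((rfZ ρ : Zt) : ℂ) - 1 / 2).re = ((rfZ ρ : Zt) : ℂ).re - 1 / 2 := by simp
              rw [← h15, h14]; simp
            have him2 : ((rfZ ρ : Zt) : ℂ).im = w.im := by
              have h14 : (((rfZ ρ : Zt) : ℂ) - 1 / 2).im = (-conj w).im := by rw [hrf]
              have h15 : (((rfZ ρ : Zt) : ℂ) - 1 / 2).im = ((rfZ ρ : Zt) : ℂ).im := by simp
              rw [← h15, h14]; simp
            have : TT g (-conj w) = 0 := by
              rw [← hrf]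
              apply hker (rfZ ρ)
              · rw [hre2]; exact hd
              · rw [him2]; exact hv
            rw [this, map_zero]; ring
        rw [h13, Complex.zero_re]
        exact hneg
    · -- far away
      rw [hT3] at hv
      have h16 : Real.exp (2 * a * δ / C) ≤ 1 + ‖w‖ / T := by
        have h17 : |w.im| ≤ ‖w‖ := Complex.abs_im_le_norm w
        have h18 : Real.exp (2 * a * δ / C) ≤ ‖w‖ / T := by
          rw [le_div_iff₀ hT0]
          linarith
        linarith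
      have h19 : 1 / (1 + ‖w‖ / T) ^ (2 * m) ≤ Real.exp (-(4 * a * δ * m / C)) := by
        have h20 : Real.exp (4 * a * δ * m / C) ≤ (1 + ‖w‖ / T) ^ (2 * m) := by
          calc Real.exp (4 * a * δ * m / C) = Real.exp (2 * a * δ / C) ^ (2 * m) := by
                rw [← Real.exp_nat_mul]
                congr 1
                push_cast
                ring
            _ ≤ _ := by gcongr
        rw [Real.exp_neg, one_div]
        exact inv_anti₀ (Real.exp_pos _) h20
      have h7 : ‖Ps ψ (w / T)‖ ^ 2 ≤ Kk ^ 2 * (T ^ 2 * (1 / (1 + w.im ^ 2))) *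
          Real.exp (-(4 * a * δ * m / C)) := by
        have h8 := hPk (w / T) hreT
        rw [hwT] at h8
        calc ‖Ps ψ (w / T)‖ ^ 2 ≤ (Kk / (1 + ‖w‖ / T) ^ (m + 1)) ^ 2 := by
              gcongr
          _ = Kk ^ 2 * (1 / (1 + ‖w‖ / T) ^ 2) * (1 / (1 + ‖w‖ / T) ^ (2 * m)) := by
              have h21 : ((1 + ‖w‖ / T) ^ (m + 1)) ^ 2 =
                (1 + ‖w‖ / T) ^ 2 * (1 + ‖w‖ / T) ^ (2 * m) := by ring
              rw [div_pow, h21]
              field_simp
          _ ≤ _ := by gcongr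
      have h9 : 2 * a * Real.exp (2 * a * |w.re|) * N2 g ≤ 2 * a * Real.exp a * N2 g := by
        have h22 : 2 * a * |w.re| ≤ a := by nlinarith
        gcongr
      have h10 : ‖GG (Sg ψ T g) (Sg ψ T g) w‖ ≤ Bc * (1 / (1 + w.im ^ 2)) := by
        calc _ ≤ ‖Ps ψ (w / T)‖ ^ 2 * (2 * a * Real.exp (2 * a * |w.re|) * N2 g) := hnn
          _ ≤ (Kk ^ 2 * (T ^ 2 * (1 / (1 + w.im ^ 2))) * Real.exp (-(4 * a * δ * m / C))) *
              (2 * a * Real.exp a * N2 g) := by gcongr
          _ = _ := by rw [hBc]; ring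
      have h11 : 0 ≤ Bb * (1 / (1 + w.im ^ 2)) := by positivity
      have h12 : (Bb + Bc) * (1 / (1 + w.im ^ 2)) =
        Bb * (1 / (1 + w.im ^ 2)) + Bc * (1 / (1 + w.im ^ 2)) := by ring
      linarith
  -- the sum
  have hsum : -((Bb + Bc) * (K * Lg 0)) ≤ QQ (Sg ψ T g) := by
    unfold Pool.Agent.Y23.QQ
    by_cases hsu : Summable (fun ρ : Zt => (mu ρ : ℝ) *
        (GG (Sg ψ T g) (Sg ψ T g) ((ρ : ℂ) - 1 / 2)).re)
    · have h23 : ∑' ρ : Zt, (-(Bb + Bc)) * ((mu ρ : ℝ) * (1 / (1 + ((ρ : ℂ).im - 0) ^ 2))) ≤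
          ∑' ρ : Zt, (mu ρ : ℝ) * (GG (Sg ψ T g) (Sg ψ T g) ((ρ : ℂ) - 1 / 2)).re := by
        refine Summable.tsum_le_tsum (fun ρ => ?_) ((Pool.Agent.Y23.zsummable 0).mul_left _) hsu
        have h24 := mul_le_mul_of_nonneg_left (key ρ) (Nat.cast_nonneg (α := ℝ) (mu ρ))
        calc _ = (mu ρ : ℝ) * -((Bb + Bc) * (1 / (1 + ((ρ : ℂ).im - 0) ^ 2))) := by ring
          _ ≤ _ := h24
      rw [tsum_mul_left] at h23
      have h25 := mul_le_mul_of_nonneg_left (hz 0) (add_nonneg hBb0 hBc0)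
      linarith
    · rw [tsum_eq_zero_of_not_summable hsu]
      have : 0 ≤ (Bb + Bc) * (K * Lg 0) := by positivity
      linarith
  -- the size
  have hb1 : Bb * (K * Lg 0) ≤ 1 / 2 * (Real.exp (2 * a * η) * N2 g) := by
    have h26 : T ^ 2 * Real.exp (2 * a * (η - δ)) ≤ Real.exp (-(a * δ)) * Real.exp (2 * a * η) := by
      rw [hT2, ← Real.exp_add, ← Real.exp_add]
      apply Real.exp_le_exp.2
      have h27 : 4 * a / C ≤ a * δ := by
        rw [div_le_iff₀ hC0]
        nlinarith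
      nlinarith
    calc Bb * (K * Lg 0) = (K1 ^ 2 * (K * Lg 0) * (2 * a)) *
          (T ^ 2 * Real.exp (2 * a * (η - δ))) * N2 g := by rw [hBb]; ring
      _ ≤ (K1 ^ 2 * (K * Lg 0) * (2 * a)) *
          (Real.exp (-(a * δ)) * Real.exp (2 * a * η)) * N2 g := by gcongr
      _ = (K1 ^ 2 * (K * Lg 0) * (2 * a) * Real.exp (-(a * δ))) * (Real.exp (2 * a * η) * N2 g) := by
          ring
      _ ≤ _ := by gcongr
  have hb2 : Bc * (K * Lg 0) ≤ 1 / 2 * (Real.exp (2 * a * η) * N2 g) := by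
    have h26 : T ^ 2 * Real.exp (-(4 * a * δ * m / C)) * Real.exp a ≤ Real.exp (-a) := by
      rw [hT2, ← Real.exp_add, ← Real.exp_add]
      apply Real.exp_le_exp.2
      have h27 : 4 * a / C - 4 * a * δ * m / C + 2 * a ≤ 0 := by
        have h28 : 4 * a / C - 4 * a * δ * m / C + 2 * a = a * (4 + 2 * C - 4 * δ * m) / C := by
          field_simp
          ring
        rw [h28]
        apply div_nonpos_of_nonpos_of_nonneg _ hC0.le
        apply mul_nonpos_of_nonneg_of_nonpos ha0.le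
        linarith
      linarith
    have h29 : 1 ≤ Real.exp (2 * a * η) := Real.one_le_exp (by positivity)
    calc Bc * (K * Lg 0) = (Kk ^ 2 * (K * Lg 0) * (2 * a)) *
          (T ^ 2 * Real.exp (-(4 * a * δ * m / C)) * Real.exp a) * N2 g := by rw [hBc]; ring
      _ ≤ (Kk ^ 2 * (K * Lg 0) * (2 * a)) * Real.exp (-a) * N2 g := by gcongr
      _ ≤ 1 / 2 * N2 g := by gcongr
      _ = 1 / 2 * (1 * N2 g) := by ring
      _ ≤ _ := by gcongr
  have hfin : (Bb + Bc) * (K * Lg 0) = Bb * (K * Lg 0) + Bc * (K * Lg 0) := by ring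
  linarith

end Pool.Agent.Q79.SD
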